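import Pool.Agent.Lib.MP_fd36ae_lc.Final

/-!
# MP_fd36ae_lc, Q1 : YES

In an o-minimal theory, if an `M`-invariant global type is domination-equivalent to a product of
`n` invariant 1-types, it is domination-equivalent to a product of `n` `M`-invariant 1-types.
-/

open FirstOrder Set MPfd36ae
open scoped Cardinal

namespace Pool.Agent.Results.MP_fd36ae_lc.InvariantBases

universe u

theorem result (L : FirstOrder.Language.{u, u}) (U : Type u) [L.Structure U]
    [LinearOrder U] [DenselyOrdered U] [NoMinOrder U] [NoMaxOrder U] [Nonempty U]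
    (hlt : (∅ : Set U).Definable L {v : Fin 2 → U | v 0 < v 1})
    (hom : OMinimal L U) (κ : Cardinal.{u}) (hκ : ℵ₀ < κ) (hL : L.card < κ)
    (hsat : Saturated L U κ) (M : L.ElementarySubstructure U) (hM : #M < κ)
    {α : Type} [Finite α] (p : GlobalType L U α) (hp : p.InvariantOver (M : Set U))
    {n : ℕ} (q : Fin n → GlobalType L U (Fin 1))
    (hq : ∀ i, ∃ A : Set U, #A < κ ∧ (q i).InvariantOver A)
    (r : GlobalType L U (Fin n)) (hr : IsProduct κ n q r) (hpr : DomEquiv κ p r) :
    ∃ q' : Fin n → GlobalType L U (Fin 1), (∀ i, (q' i).InvariantOver (M : Set U)) ∧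
      ∃ r' : GlobalType L U (Fin n), IsProduct κ n q' r' ∧ DomEquiv κ p r' :=
  final L U hlt hom κ hκ hL hsat M hM p hp q hq r hr hpr

end Pool.Agent.Results.MP_fd36ae_lc.InvariantBases
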